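import Mathlib

/-!
# No strong external difference family with `λ = 1`, `m ≥ 3`, `k ≥ 2` in any finite group

If `A B⁻¹ = G - e` in the group ring then also `B⁻¹ A = G - e`, because `G - e` is central and
invertible over `ℚ`.  With this the uniqueness argument known for abelian groups goes through.
-/

set_option autoImplicit false

open Finset

namespace Pool.Agent.Results.MP_2fa8e1_co.NoLambdaOne

/-- `(A_1, …, A_m)` is an `(|G|, m, k, l)`-SEDF in `G`: pairwise disjoint `k`-subsets such that for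
every `i` each `g ≠ 1` occurs exactly `l` times among the `x y⁻¹`, `x ∈ A_i`, `y ∈ A_j`, `j ≠ i`. -/
def IsSEDF (G : Type*) [Group G] [DecidableEq G] (m k l : ℕ) (A : Fin m → Finset G) : Prop :=
  (∀ i, (A i).card = k) ∧ (∀ i j, i ≠ j → Disjoint (A i) (A j)) ∧
    ∀ i, ∀ g : G, g ≠ 1 →
      ∑ j ∈ univ.erase i, ((A i ×ˢ A j).filter fun p => p.1 * p.2⁻¹ = g).card = l

section NearFactor

variable {G : Type*} [Group G] [Fintype G] [DecidableEq G]

/-- The matrix `P(x, z) = [x z⁻¹ ∈ A]`. -/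
def matP (A : Finset G) : Matrix G G ℚ := fun x z => if x * z⁻¹ ∈ A then 1 else 0

/-- The matrix `Q(z, y) = [y z⁻¹ ∈ B]`. -/
def matQ (B : Finset G) : Matrix G G ℚ := fun z y => if y * z⁻¹ ∈ B then 1 else 0

theorem mul_PQ (A B : Finset G) (x y : G) :
    (matP A * matQ B) x y = ((A ×ˢ B).filter fun p => p.1 * p.2⁻¹ = x * y⁻¹).card := by
  rw [Matrix.mul_apply]
  have h1 : ∀ z, matP A x z * matQ B z y = if x * z⁻¹ ∈ A ∧ y * z⁻¹ ∈ B then (1 : ℚ) else 0 := by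
    intro z
    unfold matP matQ
    by_cases h1 : x * z⁻¹ ∈ A <;> by_cases h2 : y * z⁻¹ ∈ B <;> simp [h1, h2]
  rw [sum_congr rfl fun z _ => h1 z, ← natCast_card_filter]
  congr 1
  apply card_nbij' (fun z => (x * z⁻¹, y * z⁻¹)) (fun p => p.1⁻¹ * x)
  · intro z hz
    simp only [coe_filter, mem_univ, true_and, Set.mem_ofPred_eq, mem_product] at hz ⊢
    exact ⟨hz, by group⟩
  · intro p hp
    simp only [coe_filter, mem_univ, true_and, Set.mem_ofPred_eq, mem_product] at hp ⊢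
    obtain ⟨⟨h1, h2⟩, h3⟩ := hp
    have h4 : y * (p.1⁻¹ * x)⁻¹ = p.2 := by
      have h5 : y = (p.1 * p.2⁻¹)⁻¹ * x := by rw [h3]; group
      rw [h5]; group
    refine ⟨?_, by rw [h4]; exact h2⟩
    have : x * (p.1⁻¹ * x)⁻¹ = p.1 := by group
    rw [this]; exact h1
  · intro z _
    group
  · intro p hp
    simp only [coe_filter, mem_product, Set.mem_ofPred_eq] at hp
    obtain ⟨⟨h1, h2⟩, h3⟩ := hp
    have h4 : y * (p.1⁻¹ * x)⁻¹ = p.2 := by
      have h5 : y = (p.1 * p.2⁻¹)⁻¹ * x := by rw [h3]; group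
      rw [h5]; group
    have h6 : x * (p.1⁻¹ * x)⁻¹ = p.1 := by group
    exact Prod.ext h6 h4

theorem mul_QP (A B : Finset G) (x y : G) :
    (matQ B * matP A) x y = ((A ×ˢ B).filter fun p => p.2⁻¹ * p.1 = x * y⁻¹).card := by
  rw [Matrix.mul_apply]
  have h1 : ∀ z, matQ B x z * matP A z y = if z * y⁻¹ ∈ A ∧ z * x⁻¹ ∈ B then (1 : ℚ) else 0 := by
    intro z
    unfold matP matQ
    by_cases h1 : z * y⁻¹ ∈ A <;> by_cases h2 : z * x⁻¹ ∈ B <;> simp [h1, h2]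
  rw [sum_congr rfl fun z _ => h1 z, ← natCast_card_filter]
  congr 1
  apply card_nbij' (fun z => (z * y⁻¹, z * x⁻¹)) (fun p => p.1 * y)
  · intro z hz
    simp only [coe_filter, mem_univ, true_and, Set.mem_ofPred_eq, mem_product] at hz ⊢
    exact ⟨hz, by group⟩
  · intro p hp
    simp only [coe_filter, mem_univ, true_and, Set.mem_ofPred_eq, mem_product] at hp ⊢
    obtain ⟨⟨h1, h2⟩, h3⟩ := hp
    have h4 : p.1 * y * x⁻¹ = p.2 := by
      have h5 : x = p.2⁻¹ * p.1 * y := by rw [h3]; group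
      rw [h5]; group
    refine ⟨?_, by rw [h4]; exact h2⟩
    have : p.1 * y * y⁻¹ = p.1 := by group
    rw [this]; exact h1
  · intro z _
    group
  · intro p hp
    simp only [coe_filter, mem_product, Set.mem_ofPred_eq] at hp
    obtain ⟨⟨h1, h2⟩, h3⟩ := hp
    have h4 : p.1 * y * x⁻¹ = p.2 := by
      have h5 : x = p.2⁻¹ * p.1 * y := by rw [h3]; group
      rw [h5]; group
    have h6 : p.1 * y * y⁻¹ = p.1 := by group
    exact Prod.ext h6 h4

/-- The all-ones matrix. -/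
def matJ (G : Type*) : Matrix G G ℚ := fun _ _ => 1

theorem P_mul_J (A : Finset G) : matP A * matJ G = (A.card : ℚ) • matJ G := by
  ext x y
  rw [Matrix.mul_apply]
  simp only [matP, matJ, mul_one, Matrix.smul_apply, smul_eq_mul]
  rw [← natCast_card_filter]
  congr 1
  apply card_nbij' (fun z => x * z⁻¹) (fun a => a⁻¹ * x)
  · intro z hz
    simpa using hz
  · intro a ha
    simpa using ha
  · intro z _
    group
  · intro a _
    group

theorem J_mul_P (A : Finset G) : matJ G * matP A = (A.card : ℚ) • matJ G := by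
  ext x y
  rw [Matrix.mul_apply]
  simp only [matP, matJ, one_mul, Matrix.smul_apply, smul_eq_mul, mul_one]
  rw [← natCast_card_filter]
  congr 1
  apply card_nbij' (fun z => z * y⁻¹) (fun a => a * y)
  · intro z hz
    simpa using hz
  · intro a ha
    simpa using ha
  · intro z _
    group
  · intro a _
    group

omit [Group G] [DecidableEq G] in
theorem J_mul_J : matJ G * matJ G = (Fintype.card G : ℚ) • matJ G := by
  ext x y
  rw [Matrix.mul_apply]
  simp [matJ]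

/-- If every `g ≠ 1` is uniquely `a b⁻¹` (and `1` is not), then every `g ≠ 1` is uniquely
`b⁻¹ a`. -/
theorem nearFactor_symm (A B : Finset G) (hn : 1 < Fintype.card G)
    (h : ∀ g : G, ((A ×ˢ B).filter fun p => p.1 * p.2⁻¹ = g).card = if g = 1 then 0 else 1)
    (g : G) : ((A ×ˢ B).filter fun p => p.2⁻¹ * p.1 = g).card = if g = 1 then 0 else 1 := by
  set n : ℚ := ((Fintype.card G : ℕ) : ℚ) with hndef
  have hn1 : n - 1 ≠ 0 := by
    have : (1 : ℚ) < n := by rw [hndef]; exact_mod_cast hn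
    linarith
  set P := matP A
  set Q := matQ B
  set J := matJ G
  have hPQ : P * Q = J - 1 := by
    ext x y
    rw [mul_PQ, h]
    simp only [J, matJ, Matrix.sub_apply, Matrix.one_apply, mul_inv_eq_one]
    split_ifs <;> simp
  set K : Matrix G G ℚ := (1 / (n - 1)) • J - 1
  have hJJ : J * J = n • J := J_mul_J
  have hJK : (J - 1) * K = 1 := by
    have h1 : (J - 1) * K = (1 / (n - 1)) • (J * J) - J - (1 / (n - 1)) • J + 1 := by
      simp only [K, sub_mul, mul_sub, one_mul, mul_one, Matrix.mul_smul]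
      abel
    rw [h1, hJJ, smul_smul]
    have h2 : (1 / (n - 1) * n) • J - J - (1 / (n - 1)) • J = (0 : ℚ) • J := by
      have h3 : (1 / (n - 1) * n) • J - J - (1 / (n - 1)) • J =
          (1 / (n - 1) * n - 1 - 1 / (n - 1)) • J := by
        rw [sub_smul, sub_smul, one_smul]
      rw [h3]
      congr 1
      field_simp
      ring
    rw [h2, zero_smul, zero_add]
  have hPJ : P * J = J * P := by rw [P_mul_J, J_mul_P]
  have hPK : P * K = K * P := by
    simp only [K, mul_sub, sub_mul, mul_one, one_mul, Matrix.mul_smul, Matrix.smul_mul, hPJ]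
  have h1 : P * (Q * K) = 1 := by rw [← mul_assoc, hPQ, hJK]
  have h2 : Q * K * P = 1 := mul_eq_one_comm.mp h1
  have h3 : (Q * P) * K = 1 := by rw [mul_assoc, hPK, ← mul_assoc]; exact h2
  have h4 : K * (J - 1) = 1 := mul_eq_one_comm.mp hJK
  have h5 : Q * P = J - 1 := by
    calc Q * P = (Q * P) * (K * (J - 1)) := by rw [h4, mul_one]
      _ = (Q * P * K) * (J - 1) := by simp only [mul_assoc]
      _ = J - 1 := by rw [h3, one_mul]
  have h6 := congrFun (congrFun h5 g) 1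
  rw [mul_QP] at h6
  simp only [J, matJ, Matrix.sub_apply, Matrix.one_apply, inv_one, mul_one] at h6
  have h7 : (((A ×ˢ B).filter fun p => p.2⁻¹ * p.1 = g).card : ℚ) =
      ((if g = 1 then 0 else 1 : ℕ) : ℚ) := by
    rw [h6]; split_ifs <;> simp
  exact_mod_cast h7

end NearFactor

/-- **No SEDF with `λ = 1`, `m ≥ 3` and `k ≥ 2` exists in any finite group.** -/
theorem no_sedf (G : Type*) [Group G] [Fintype G] [DecidableEq G] (m k : ℕ) (hm : 3 ≤ m)
    (hk : 2 ≤ k) (A : Fin m → Finset G) : ¬ IsSEDF G m k 1 A := by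
  rintro ⟨hcard, hdisj, hcover⟩
  -- the union of the other sets
  set B : Fin m → Finset G := fun i => (univ.erase i).biUnion A with hB
  have hAB : ∀ i j, j ≠ i → A j ⊆ B i := fun i j hij x hx =>
    mem_biUnion.mpr ⟨j, mem_erase.mpr ⟨hij, mem_univ j⟩, hx⟩
  have hBd : ∀ i x, x ∈ A i → x ∉ B i := by
    intro i x hx hxB
    obtain ⟨j, hj, hxj⟩ := mem_biUnion.mp hxB
    exact disjoint_left.mp (hdisj i j (mem_erase.mp hj).1.symm) hx hxj
  have hne1 : ∀ i j, i ≠ j → ∀ x ∈ A i, ∀ y ∈ A j, x ≠ y := by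
    intro i j hij x hx y hy h
    exact disjoint_left.mp (hdisj i j hij) hx (h ▸ hy)
  have hR : ∀ i, ∀ g : G, ((A i ×ˢ B i).filter fun p => p.1 * p.2⁻¹ = g).card =
      if g = 1 then 0 else 1 := by
    intro i g
    split_ifs with hg
    · rw [card_eq_zero, filter_eq_empty_iff]
      rintro ⟨a, b⟩ hab h
      obtain ⟨ha, hb⟩ := mem_product.mp hab
      have : a = b := by rw [hg] at h; exact mul_inv_eq_one.mp h
      exact hBd i a ha (this ▸ hb)
    · rw [← hcover i g hg, ← card_biUnion]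
      · congr 1
        ext ⟨a, b⟩
        simp only [mem_filter, mem_product, mem_biUnion, hB]
        constructor
        · rintro ⟨⟨ha, j, hj, hb⟩, h⟩
          exact ⟨j, hj, ⟨ha, hb⟩, h⟩
        · rintro ⟨j, hj, ⟨ha, hb⟩, h⟩
          exact ⟨⟨ha, j, hj, hb⟩, h⟩
      · intro j _ j' _ hjj'
        apply disjoint_left.mpr
        rintro ⟨a, b⟩ h1 h2
        rw [mem_filter, mem_product] at h1 h2
        exact disjoint_left.mp (hdisj j j' hjj') h1.1.2 h2.1.2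
  have h0 : (⟨0, by omega⟩ : Fin m) ≠ ⟨1, by omega⟩ := by simp [Fin.ext_iff]
  have h0' : (⟨0, by omega⟩ : Fin m) ≠ ⟨2, by omega⟩ := by simp [Fin.ext_iff]
  have h12 : (⟨1, by omega⟩ : Fin m) ≠ ⟨2, by omega⟩ := by simp [Fin.ext_iff]
  set i0 : Fin m := ⟨0, by omega⟩
  set i1 : Fin m := ⟨1, by omega⟩
  set i2 : Fin m := ⟨2, by omega⟩
  obtain ⟨x, hx, y, hy, hxy⟩ : ∃ x ∈ A i0, ∃ y ∈ A i0, x ≠ y :=
    one_lt_card.mp (by rw [hcard]; omega)
  have hn : 1 < Fintype.card G := Fintype.one_lt_card_iff.mpr ⟨x, y, hxy⟩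
  have hL : ∀ i, ∀ g : G, ((A i ×ˢ B i).filter fun p => p.2⁻¹ * p.1 = g).card =
      if g = 1 then 0 else 1 := fun i g => nearFactor_symm (A i) (B i) hn (hR i) g
  -- uniqueness statements
  have hRu : ∀ i, ∀ a ∈ A i, ∀ b ∈ B i, ∀ a' ∈ A i, ∀ b' ∈ B i, a * b⁻¹ = a' * b'⁻¹ →
      a = a' ∧ b = b' := by
    intro i a ha b hb a' ha' b' hb' h
    have h1 : ((A i ×ˢ B i).filter fun p => p.1 * p.2⁻¹ = a' * b'⁻¹).card ≤ 1 := by
      rw [hR]; split_ifs <;> omega
    have h2 := card_le_one.mp h1 (a, b) (mem_filter.mpr ⟨mem_product.mpr ⟨ha, hb⟩, h⟩)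
      (a', b') (mem_filter.mpr ⟨mem_product.mpr ⟨ha', hb'⟩, rfl⟩)
    exact Prod.ext_iff.mp h2
  have hLu : ∀ i, ∀ a ∈ A i, ∀ b ∈ B i, ∀ a' ∈ A i, ∀ b' ∈ B i, b⁻¹ * a = b'⁻¹ * a' →
      a = a' ∧ b = b' := by
    intro i a ha b hb a' ha' b' hb' h
    have h1 : ((A i ×ˢ B i).filter fun p => p.2⁻¹ * p.1 = b'⁻¹ * a').card ≤ 1 := by
      rw [hL]; split_ifs <;> omega
    have h2 := card_le_one.mp h1 (a, b) (mem_filter.mpr ⟨mem_product.mpr ⟨ha, hb⟩, h⟩)
      (a', b') (mem_filter.mpr ⟨mem_product.mpr ⟨ha', hb'⟩, rfl⟩)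
    exact Prod.ext_iff.mp h2
  -- existence
  have hRe : ∀ i, ∀ g : G, g ≠ 1 → ∃ a ∈ A i, ∃ b ∈ B i, a * b⁻¹ = g := by
    intro i g hg
    have h1 : 0 < ((A i ×ˢ B i).filter fun p => p.1 * p.2⁻¹ = g).card := by
      rw [hR, if_neg hg]; omega
    obtain ⟨⟨a, b⟩, hab⟩ := card_pos.mp h1
    rw [mem_filter, mem_product] at hab
    exact ⟨a, hab.1.1, b, hab.1.2, hab.2⟩
  -- members of `B i` outside `A i0` belong to `B i0`
  have hBB : ∀ i b, b ∈ B i → b ∉ A i0 → b ∈ B i0 := by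
    intro i b hb hb0
    obtain ⟨j, _, hbj⟩ := mem_biUnion.mp hb
    have hj : j ≠ i0 := fun h => hb0 (h ▸ hbj)
    exact hAB i0 j hj hbj
  -- claim R
  have claimR : ∀ i, i ≠ i0 → ∀ u ∈ A i0, ∀ v ∈ A i0, u ≠ v → ∀ a ∈ A i, ∀ b ∈ B i,
      a * b⁻¹ = u * v⁻¹ → b ∈ A i0 := by
    intro i hi u hu v hv huv a ha b hb h
    by_contra hb0
    have h1 : b⁻¹ * v = a⁻¹ * u := by
      have : a⁻¹ * (a * b⁻¹) * v = a⁻¹ * (u * v⁻¹) * v := by rw [h]
      calc b⁻¹ * v = a⁻¹ * (a * b⁻¹) * v := by group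
        _ = a⁻¹ * (u * v⁻¹) * v := this
        _ = a⁻¹ * u := by group
    exact huv (hLu i0 v hv b (hBB i b hb hb0) u hu a (hAB i0 i hi ha) h1).1.symm
  -- claim L
  have claimL : ∀ i, i ≠ i0 → ∀ u ∈ A i0, ∀ v ∈ A i0, u ≠ v → ∀ a ∈ A i, ∀ b ∈ B i,
      b⁻¹ * a = v⁻¹ * u → b ∈ A i0 := by
    intro i hi u hu v hv huv a ha b hb h
    by_contra hb0
    have h1 : v * b⁻¹ = u * a⁻¹ := by
      have : v * (b⁻¹ * a) * a⁻¹ = v * (v⁻¹ * u) * a⁻¹ := by rw [h]
      calc v * b⁻¹ = v * (b⁻¹ * a) * a⁻¹ := by group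
        _ = v * (v⁻¹ * u) * a⁻¹ := this
        _ = u * a⁻¹ := by group
    exact huv (hRu i0 v hv b (hBB i b hb hb0) u hu a (hAB i0 i hi ha) h1).1.symm
  have hg : x * y⁻¹ ≠ 1 := fun h => hxy (mul_inv_eq_one.mp h)
  obtain ⟨a1, ha1, b1, hb1, e1⟩ := hRe i1 _ hg
  obtain ⟨a2, ha2, b2, hb2, e2⟩ := hRe i2 _ hg
  have hb1' := claimR i1 h0.symm x hx y hy hxy a1 ha1 b1 hb1 e1
  have hb2' := claimR i2 h0'.symm x hx y hy hxy a2 ha2 b2 hb2 e2
  have hkey : a2⁻¹ * a1 = b2⁻¹ * b1 := by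
    have h1 : a1 * b1⁻¹ = a2 * b2⁻¹ := e1.trans e2.symm
    have h2 : a2⁻¹ * (a1 * b1⁻¹) * b1 = a2⁻¹ * (a2 * b2⁻¹) * b1 := by rw [h1]
    calc a2⁻¹ * a1 = a2⁻¹ * (a1 * b1⁻¹) * b1 := by group
      _ = a2⁻¹ * (a2 * b2⁻¹) * b1 := h2
      _ = b2⁻¹ * b1 := by group
  have ha12 : a1 ≠ a2 := hne1 i1 i2 h12 a1 ha1 a2 ha2
  have hb12 : b1 ≠ b2 := by
    rintro rfl
    rw [inv_mul_cancel] at hkey
    exact ha12 (inv_mul_eq_one.mp hkey).symm
  have := claimL i1 h0.symm b1 hb1' b2 hb2' hb12 a1 ha1 a2 (hAB i1 i2 h12.symm ha2) hkey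
  exact hne1 i0 i2 h0' a2 this a2 ha2 rfl

/-- **Answer to Q1: no.** No finite non-abelian group (indeed no finite group at all) contains an
`(n, m, k, 1)`-SEDF with `m ≥ 3` and `k ≥ 2`. -/
theorem result :
    (¬ ∃ (G : Type) (_ : Group G) (_ : Fintype G) (_ : DecidableEq G) (m k : ℕ)
      (A : Fin m → Finset G), (∃ x y : G, x * y ≠ y * x) ∧ 3 ≤ m ∧ 2 ≤ k ∧ IsSEDF G m k 1 A) ∧
    ∀ (G : Type) [Group G] [Fintype G] [DecidableEq G] (m k : ℕ) (A : Fin m → Finset G),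
      3 ≤ m → 2 ≤ k → ¬ IsSEDF G m k 1 A := by
  constructor
  · rintro ⟨G, _, _, _, m, k, A, -, hm, hk, hA⟩
    exact no_sedf G m k hm hk A hA
  · intro G _ _ _ m k A hm hk
    exact no_sedf G m k hm hk A

end Pool.Agent.Results.MP_2fa8e1_co.NoLambdaOne
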